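import Pool.Agent.H29.TC.Targets
import Pool.Agent.H26.MV.Tors

/-!
# The bound for the class number times the regulator
-/

set_option autoImplicit false

open NumberField NumberField.InfinitePlace NumberField.Units
  NumberField.Units.dirichletUnitTheorem MeasureTheory Set Filter
open scoped nonZeroDivisors ENNReal

namespace Pool.Agent.H63.THC

open Pool.Agent.H25.HK Pool.Agent.H28.RC Pool.Agent.H23.LB Pool.Agent.H29.TC

open scoped Classical in
theorem vol_Fd (K : Type) [Field K] [NumberField K] :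
    volume.real (Fd K) = regulator K := by
  unfold regulator Fd
  exact (ZLattice.covolume_eq_measure_fundamentalDomain (unitLattice K) volume
    (ZLattice.isAddFundamentalDomain (basisUnitLattice K) volume)).symm

open scoped Classical in
theorem bdd_Fd (K : Type) [Field K] [NumberField K] : Bornology.IsBounded (Fd K) :=
  ZSpan.fundamentalDomain_isBounded _

open scoped Classical in
theorem meas_Fd (K : Type) [Field K] [NumberField K] : MeasurableSet (Fd K) :=
  ZSpan.fundamentalDomain_measurableSet _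

open scoped Classical in
theorem int_Fd (K : Type) [Field K] [NumberField K] (g : logSpace K → ℝ) (hg : Continuous g) :
    IntegrableOn g (Fd K) := by
  refine IntegrableOn.mono_set ?_ subset_closure
  exact hg.continuousOn.integrableOn_compact (bdd_Fd K).isCompact_closure

theorem cw_le (K : Type) [Field K] [NumberField K] :
    cw K ≤ (torsionOrder K : ℝ) := by
  unfold cw
  have h : ((2 : ℝ) ^ (nrRealPlaces K + nrComplexPlaces K))⁻¹ ≤ 1 :=
    inv_le_one_of_one_le₀ (one_le_pow₀ (by norm_num))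
  calc _ ≤ (torsionOrder K : ℝ) * 1 := by gcongr
    _ = _ := mul_one _

theorem one_le_discr (K : Type) [Field K] [NumberField K] : (1 : ℝ) ≤ |(discr K : ℝ)| := by
  have h : (1 : ℤ) ≤ |discr K| := Int.one_le_abs (discr_ne_zero K)
  exact_mod_cast h

open scoped Classical in
theorem pf_HR (hA1 : T_A1) (hMV : T_MV) (hFP : T_FP) (hSY : T_SY) (hRR : T_RR) : T_HR := by
  intro n ε hε
  rcases Nat.eq_zero_or_pos n with hn | hn
  · refine ⟨0, fun K _ _ hK => ?_⟩
    have := Module.finrank_pos (R := ℚ) (M := K)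
    omega
  set κ : ℝ := min (2 * ε) 1 with hκ
  have hκ0 : 0 < κ := lt_min (by linarith) one_pos
  have hκ1 : κ ≤ 1 := min_le_right _ _
  have hκ2 : κ ≤ 2 * ε := min_le_left _ _
  obtain ⟨B, hB⟩ := hMV n hn
  obtain ⟨C, hC⟩ := hB κ hκ0 hκ1
  obtain ⟨C₁, hC₁⟩ := hA1 n κ hκ0
  refine ⟨|C| * (|C₁| * ((2 * n) ^ (n + 2) : ℕ)), fun K _ _ hK => ?_⟩
  obtain ⟨D⟩ := hSY K ⊤ top_ne_bot
  have hcard : Fintype.card D.ι = classNumber K := (hRR K D.ι D.M D.reps).2.2
  have hd := one_le_discr K
  have hdp : |(discr K : ℝ)| ^ ((1 + κ) / 2) ≤ |(discr K : ℝ)| ^ (1 / 2 + ε) :=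
    Real.rpow_le_rpow_of_exponent_le hd (by linarith)
  have h1 : ∀ c z, (1 : ℝ) ≤ C * AK K κ (D.M c) z := fun c z =>
    (hC K hK ⊤ (D.M c) z 1 top_ne_bot (D.reps.1 c) one_pos le_rfl).2.2
  have hAK : ∀ c z, 0 ≤ AK K κ (D.M c) z := by
    intro c z
    unfold AK
    refine setIntegral_nonneg measurableSet_Ioi fun T hT => ?_
    have h2 := ((hFP K (D.M c) (D.reps.1 c)).2.2.1 z T hT).1
    exact mul_nonneg (by linarith) (Real.rpow_nonneg (le_of_lt hT) _)
  have hint : ∀ c, IntegrableOn (fun z => AK K κ (D.M c) z) (Fd K) := fun c =>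
    int_Fd K _ ((hFP K (D.M c) (D.reps.1 c)).2.2.2.2.2 κ hκ0).1
  have hvol : volume (Fd K) ≠ ⊤ := (bdd_Fd K).measure_lt_top.ne
  have h3 : ∀ c, regulator K ≤ |C| * ∫ z in Fd K, AK K κ (D.M c) z := by
    intro c
    rw [← vol_Fd, ← integral_const_mul]
    calc volume.real (Fd K) = ∫ z in Fd K, (1 : ℝ) := by simp
      _ ≤ ∫ z in Fd K, |C| * AK K κ (D.M c) z := by
          refine setIntegral_mono (integrableOn_const hvol) ((hint c).const_mul _) fun z => ?_
          have h4 := h1 c z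
          have h5 : C * AK K κ (D.M c) z ≤ |C| * AK K κ (D.M c) z :=
            mul_le_mul_of_nonneg_right (le_abs_self C) (hAK c z)
          linarith
  have h6 := (hC₁ K hK D.ι D.M D.reps).1
  have hcw : cw K ≤ (((2 * n) ^ (n + 2) : ℕ) : ℝ) :=
    (cw_le K).trans (by exact_mod_cast Pool.Agent.H26.MV.torsion_bound n K hK)
  have hcw0 : 0 ≤ cw K := by unfold cw; positivity
  calc (classNumber K : ℝ) * regulator K = ∑ _c : D.ι, regulator K := by
        rw [Finset.sum_const, Finset.card_univ, hcard, nsmul_eq_mul]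
    _ ≤ ∑ c : D.ι, |C| * ∫ z in Fd K, AK K κ (D.M c) z := Finset.sum_le_sum fun c _ => h3 c
    _ = |C| * ∑ c : D.ι, ∫ z in Fd K, AK K κ (D.M c) z := by rw [Finset.mul_sum]
    _ ≤ |C| * (C₁ * cw K * |(discr K : ℝ)| ^ ((1 + κ) / 2)) := by gcongr
    _ ≤ |C| * (|C₁| * (((2 * n) ^ (n + 2) : ℕ) : ℝ) * |(discr K : ℝ)| ^ (1 / 2 + ε)) := by
        have h7 := le_abs_self C₁
        gcongr
    _ = _ := by ring

end Pool.Agent.H63.THC
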